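import Pool.Agent.H98.CE.Targets

/-!
# The levels without errors
-/

set_option autoImplicit false

open MeasureTheory ProbabilityTheory Filter Topology
open Pool.Agent.H95 Pool.Agent.H95.Cop Pool.Agent.H98.CE

namespace Pool.Agent.H68.CEL

theorem cv_zero_of_lt (t : ℕ → ℝ) (thr : ℕ) : ∀ m s : ℕ, s < m * thr → cv t thr m s = 0 := by
  intro m
  induction m with
  | zero => intro s hs; omega
  | succ m ih =>
    intro s hs
    unfold cv
    refine Finset.sum_eq_zero fun j hj => ?_
    have h1 := Finset.mem_Icc.1 hj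
    have h2 : (m + 1) * thr = m * thr + thr := by ring
    rw [ih (s - j) (by omega), mul_zero]

theorem pw_zero_of_lt {F : ℕ → ℝ} (hF : F 0 = 0) : ∀ m s : ℕ, s < m → pw F m s = 0 := by
  intro m
  induction m with
  | zero => intro s hs; omega
  | succ m ih =>
    intro s hs
    unfold pw
    refine Finset.sum_eq_zero fun j hj => ?_
    have h1 := Finset.mem_range.1 hj
    rcases Nat.eq_zero_or_pos j with h0 | h0
    · rw [h0, hF, zero_mul]
    · rw [ih (s - j) (by omega), mul_zero]

theorem cv_eq_pw {t F : ℕ → ℝ} {l R : ℕ} (hF : F 0 = 0)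
    (h : ∀ u, 1 ≤ u → u ≤ R → t (u + l + 2) = F u) :
    ∀ m S : ℕ, S ≤ R → cv t (l + 3) m (S + m * (l + 2)) = pw F m S := by
  intro m
  induction m with
  | zero =>
    intro S _
    unfold cv pw
    rw [Nat.zero_mul, Nat.add_zero]
  | succ m ih =>
    intro S hS
    have hN : S + (m + 1) * (l + 2) = (S + (l + 2)) + m * (l + 2) := by ring
    rw [hN]
    unfold cv pw
    have h1 : Finset.Ico (1 + (l + 2)) (S + 1 + (l + 2)) ⊆
        Finset.Icc (l + 3) (S + (l + 2) + m * (l + 2)) := by
      intro j hj
      have := Finset.mem_Ico.1 hj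
      rw [Finset.mem_Icc]
      omega
    rw [← Finset.sum_subset h1, ← Finset.sum_Ico_add', Finset.range_eq_Ico,
      Finset.sum_eq_sum_Ico_succ_bot (Nat.succ_pos S), hF, zero_mul, zero_add]
    · refine Finset.sum_congr rfl fun u hu => ?_
      have hu1 := Finset.mem_Ico.1 hu
      have h2 : S + (l + 2) + m * (l + 2) - (u + (l + 2)) = (S - u) + m * (l + 2) := by omega
      rw [h2, ih (S - u) (by omega), ← Nat.add_assoc, h u (by omega) (by omega)]
    · intro j hj hj'
      have hj1 := Finset.mem_Icc.1 hj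
      rw [Finset.mem_Ico, not_and_or] at hj'
      have h3 : m * (l + 2) ≤ m * (l + 3) := Nat.mul_le_mul_left m (by omega)
      rw [cv_zero_of_lt t (l + 3) m _ (by omega), mul_zero]

theorem pf_NUS : T_NUS := by
  intro d η J ms l
  induction l with
  | zero =>
    intro U hU hJ hms
    unfold tl Fl t0
    rw [if_pos (by omega), if_neg (by omega)]
    have he : ((U + 0 + 2 : ℕ) : ℝ) + 2 = (U : ℝ) + 4 := by
      push_cast
      ring
    rw [he, one_mul]
  | succ l ih =>
    intro U hU hJ hms
    have hF0 : Fl η (fun U => Real.exp (-d * (U + 4) * η) / (U + 4)) l 0 = 0 := by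
      cases l with
      | zero => unfold Fl; exact if_pos rfl
      | succ l => unfold Fl; exact if_pos rfl
    have h1 := cv_eq_pw (t := tl d η 1 J ms l)
      (F := Fl η (fun U => Real.exp (-d * (U + 4) * η) / (U + 4)) l) (l := l) (R := U + 1) hF0
      (fun u hu hu' => ih u hu (by omega) (by omega))
    have h2 : tl d η 1 J ms (l + 1) (U + (l + 1) + 2) = ∑ m ∈ Finset.range ms, η ^ m *
        pw (Fl η (fun U => Real.exp (-d * (U + 4) * η) / (U + 4)) l) (m + 1) (U + 1) := by
      change nx (tl d η 1 J ms l) (l + 3) ms (1 * η) 1 (U + (l + 1) + 2) = _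
      unfold nx
      rw [one_mul, one_mul]
      refine Finset.sum_congr rfl fun m _ => ?_
      rw [← h1 (m + 1) (U + 1) le_rfl]
      congr 2
      rw [Nat.add_sub_assoc (by norm_num)]
      ring
    rw [h2]
    have h3 : Fl η (fun U => Real.exp (-d * (U + 4) * η) / (U + 4)) (l + 1) U =
        ∑ m ∈ Finset.range (U + 1), η ^ m *
        pw (Fl η (fun U => Real.exp (-d * (U + 4) * η) / (U + 4)) l) (m + 1) (U + 1) := by
      change (if U = 0 then 0 else _) = _
      rw [if_neg (by omega)]
    rw [h3]
    symm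
    apply Finset.sum_subset
    · intro m hm
      rw [Finset.mem_range] at hm ⊢
      omega
    · intro m _ hm
      rw [Finset.mem_range] at hm
      rw [pw_zero_of_lt hF0 (m + 1) (U + 1) (by omega), mul_zero]

end Pool.Agent.H68.CEL
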