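import Pool.Agent.H98.CE.Targets

/-!
# Stretches between two windows: measurability and dependence
-/

set_option autoImplicit false

open MeasureTheory ProbabilityTheory Filter Topology
open Pool.Agent.H95 Pool.Agent.H95.Cop Pool.Agent.H98.CE

namespace Pool.Agent.H68.CEL

theorem measurable_HH (a b : ℕ) : Measurable fun x : ℕ → ℝ => H x a b := by
  unfold H
  exact Finset.measurable_fun_sum _ fun i _ => measurable_pi_apply i

theorem H_congr {t : ℕ} {x x' : ℕ → ℝ} (h : ∀ i < t, x i = x' i) {a b : ℕ} (hb : b ≤ t) :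
    H x a b = H x' a b := by
  unfold H
  exact Finset.sum_congr rfl fun i hi => h i ((Finset.mem_Ico.1 hi).2.trans_le hb)

theorem measurable_Rr (K : PMF ℕ) (ℓ a : ℕ) : Measurable fun x : ℕ → ℝ => Rr K ℓ x a := by
  unfold Rr
  apply Measurable.div_const
  refine Finset.measurable_fun_sum _ fun y _ => Finset.measurable_fun_sum _ fun y' _ => ?_
  exact (((measurable_HH y y').div_const 2).add (measurable_HH y' _)).exp.const_mul _

theorem measurable_Ll (K : PMF ℕ) (ℓ b : ℕ) : Measurable fun x : ℕ → ℝ => Ll K ℓ x b := by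
  unfold Ll
  apply Measurable.div_const
  refine Finset.measurable_fun_sum _ fun y _ => Finset.measurable_fun_sum _ fun y' _ => ?_
  exact ((measurable_HH _ y).add ((measurable_HH y y').div_const 2)).exp.const_mul _

theorem Rr_congr (K : PMF ℕ) (ℓ : ℕ) {t : ℕ} {x x' : ℕ → ℝ} (h : ∀ i < t, x i = x' i) {a : ℕ}
    (ha : (a + 1) * ℓ ≤ t) : Rr K ℓ x a = Rr K ℓ x' a := by
  unfold Rr
  congr 1
  refine Finset.sum_congr rfl fun y _ => Finset.sum_congr rfl fun y' hy' => ?_
  have h1 := (Finset.mem_Ico.1 hy').2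
  rw [H_congr h (h1.le.trans ha), H_congr h ha]

theorem Ll_congr (K : PMF ℕ) (ℓ : ℕ) {t : ℕ} {x x' : ℕ → ℝ} (h : ∀ i < t, x i = x' i) {a : ℕ}
    (ha : (a + 1) * ℓ ≤ t) : Ll K ℓ x a = Ll K ℓ x' a := by
  unfold Ll
  congr 1
  refine Finset.sum_congr rfl fun y hy => Finset.sum_congr rfl fun y' hy' => ?_
  have h1 := (Finset.mem_Ico.1 hy').2
  have h2 := (Finset.mem_Ico.1 hy).2
  rw [H_congr h (h1.le.trans ha), H_congr h (h2.le.trans ha)]

theorem pf_AAM : T_AAM := by
  intro K ℓ α κ aY aV np S T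
  refine ⟨?_, ?_, ?_, ?_⟩
  · unfold AA
    refine Finset.measurable_fun_sum _ fun a _ => Finset.measurable_fun_sum _ fun b _ => ?_
    apply Measurable.const_mul
    unfold st
    exact ((measurable_Rr K ℓ a).mul (measurable_HH _ _).exp).mul (measurable_Ll K ℓ b)
  · have h1 : {x : ℕ → ℝ | sg ℓ aY aV np S T x} =
        ⋂ k, ⋂ (_ : k < np), {x : ℕ → ℝ | 0 < hy ℓ aY aV x k ↔ S < k ∧ k ≤ T} := by
      ext x
      simp only [Set.mem_iInter]
      exact Iff.rfl
    rw [h1]
    refine MeasurableSet.iInter fun k => MeasurableSet.iInter fun _ => ?_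
    have h2 : MeasurableSet {x : ℕ → ℝ | 0 < hy ℓ aY aV x k} :=
      measurableSet_lt measurable_const (measurable_HH _ _)
    by_cases h3 : S < k ∧ k ≤ T
    · have h4 : {x : ℕ → ℝ | 0 < hy ℓ aY aV x k ↔ S < k ∧ k ≤ T} =
          {x : ℕ → ℝ | 0 < hy ℓ aY aV x k} := by
        ext x
        exact iff_true_right h3
      rw [h4]
      exact h2
    · have h4 : {x : ℕ → ℝ | 0 < hy ℓ aY aV x k ↔ S < k ∧ k ≤ T} =
          {x : ℕ → ℝ | 0 < hy ℓ aY aV x k}ᶜ := by
        ext x
        exact iff_false_right h3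
      rw [h4]
      exact h2.compl
  · intro hST hT x x' h
    have hP : (T + 1) * (aY + aV) ≤ np * (aY + aV) := Nat.mul_le_mul_right _ hT
    change AA K ℓ α κ aY aV S T x = AA K ℓ α κ aY aV S T x'
    unfold AA
    refine Finset.sum_congr rfl fun a ha => Finset.sum_congr rfl fun b hb => ?_
    have ha1 := (Finset.mem_Ico.1 ha).2
    have hb1 := (Finset.mem_Ico.1 hb).2
    have ha2 : a + 1 ≤ np * (aY + aV) :=
      (Nat.succ_le_of_lt ha1).trans (Nat.mul_le_mul_right _ (by omega))
    have hb2 : b + 1 ≤ np * (aY + aV) := (Nat.succ_le_of_lt hb1).trans hP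
    congr 1
    unfold st
    rw [Rr_congr K ℓ h (Nat.mul_le_mul_right ℓ ha2), Ll_congr K ℓ h (Nat.mul_le_mul_right ℓ hb2),
      H_congr h (Nat.mul_le_mul_right ℓ ((Nat.le_succ b).trans hb2))]
  · intro x x' h
    have h1 : ∀ k < np, hy ℓ aY aV x k = hy ℓ aY aV x' k := by
      intro k hk
      unfold hy
      apply H_congr h
      apply Nat.mul_le_mul_right
      calc k * (aY + aV) + aY ≤ k * (aY + aV) + (aY + aV) := by omega
        _ = (k + 1) * (aY + aV) := by ring
        _ ≤ np * (aY + aV) := Nat.mul_le_mul_right _ hk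
    change sg ℓ aY aV np S T x = sg ℓ aY aV np S T x'
    unfold sg
    apply propext
    constructor
    · intro h2 k hk
      rw [← h1 k hk]
      exact h2 k hk
    · intro h2 k hk
      rw [h1 k hk]
      exact h2 k hk

end Pool.Agent.H68.CEL
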