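import Pool.Agent.H98.CE.Targets

/-!
# Dressing on both sides
-/

set_option autoImplicit false

open MeasureTheory ProbabilityTheory Filter Topology
open Pool.Agent.H95 Pool.Agent.H95.Cop Pool.Agent.H98.CE

namespace Pool.Agent.H68.CEL

theorem lk_nonneg {α κ : ℝ} (hκ : 0 ≤ κ) (d : ℕ) : 0 ≤ lk α κ d :=
  mul_nonneg hκ (Real.rpow_nonneg (Nat.cast_nonneg _) _)

theorem pf_DRE (hPCB : T_PCB) (hPXS : T_PXS) (hDRA : T_DRA) (hDRB : T_DRB) : T_DRE := by
  intro K ℓ α κ hl hα hκ hHK n glo ghi hn hglo x k t N hkt hN v hv0 hv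
  have hqq : ∀ (x : ℕ → ℝ) (c : ℕ), 0 ≤ qq K ℓ x c := fun x c =>
    le_min zero_le_one (((hPCB K ℓ hl).2 c c).1 x 0).1
  have hfw : ∀ k t : ℕ, 0 ≤ fw K ℓ α κ n glo ghi x k t := by
    intro k
    induction k with
    | zero => intro t; unfold fw; exact zero_le_one
    | succ k ih =>
      intro t
      unfold fw
      exact add_nonneg zero_le_one (Finset.sum_nonneg fun s _ => mul_nonneg (lk_nonneg hκ _)
        (mul_nonneg (hqq _ _) (ih _)))
  have hsf : ∀ (k : ℕ) (x : ℕ → ℝ), 0 ≤ sf K ℓ α κ n glo ghi k x := by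
    intro k
    induction k with
    | zero => intro x; unfold sf; exact zero_le_one
    | succ k ih =>
      intro x
      unfold sf
      exact add_nonneg zero_le_one (Finset.sum_nonneg fun s _ => mul_nonneg (lk_nonneg hκ _)
        (mul_nonneg (hqq _ _) (ih _)))
  have hv' : v ≤ PX K ℓ x t (t + n) t (t + n) := by
    rw [← ((hPXS K ℓ hl 0 0 0 0).1 x).2.2.2 n t]
    exact hv
  calc fw K ℓ α κ n glo ghi x k t * v * sf K ℓ α κ n glo ghi k (shift ((t + n) * ℓ) x)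
      ≤ fw K ℓ α κ n glo ghi x k t * PX K ℓ x t (t + n) t (t + n) *
          sf K ℓ α κ n glo ghi k (shift ((t + n) * ℓ) x) :=
        mul_le_mul_of_nonneg_right (mul_le_mul_of_nonneg_left hv' (hfw k t)) (hsf k _)
    _ ≤ PX K ℓ x (t - k * ghi) (t + n) t (t + n) *
          sf K ℓ α κ n glo ghi k (shift ((t + n) * ℓ) x) :=
        mul_le_mul_of_nonneg_right (hDRA K ℓ α κ hl hα hκ hHK n glo ghi hglo x k t n t (t + n) hkt
          le_rfl le_rfl) (hsf k _)
    _ ≤ PX K ℓ x (t - k * ghi) (t + n) t (t + n + k * (ghi + 1)) :=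
        hDRB K ℓ α κ hl hα hκ hHK n glo ghi hglo x k t n (t - k * ghi) (t + n) hn le_rfl le_rfl
    _ ≤ PX K ℓ x 0 N 0 N :=
        ((hPXS K ℓ hl (t - k * ghi) (t + n) t (t + n + k * (ghi + 1))).1 x).2.2.1 0 N 0 N
          (Nat.zero_le _) (by omega) (Nat.zero_le _) hN
    _ = WB K ℓ N x := rfl

end Pool.Agent.H68.CEL
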