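import Pool.Agent.H98.CE.Targets

/-!
# The dressing functional `fw`
-/

set_option autoImplicit false

open MeasureTheory ProbabilityTheory Filter Topology
open Pool.Agent.H95 Pool.Agent.H95.Cop Pool.Agent.H98.CE

namespace Pool.Agent.H68.CEL

theorem lk_nonneg' {α κ : ℝ} (hκ : 0 ≤ κ) (d : ℕ) : 0 ≤ lk α κ d :=
  mul_nonneg hκ (Real.rpow_nonneg (Nat.cast_nonneg _) _)

theorem qq_facts (hPCB : T_PCB) (K : PMF ℕ) (ℓ : ℕ) (hl : 1 ≤ ℓ) (c : ℕ) :
    (Measurable fun x : ℕ → ℝ => qq K ℓ x c) ∧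
    (∀ x : ℕ → ℝ, 0 ≤ qq K ℓ x c ∧ qq K ℓ x c ≤ 1 ∧ qq K ℓ x c = qq K ℓ (shift (c * ℓ) x) 0) ∧
    DepLt ((c + 1) * ℓ) (fun x : ℕ → ℝ => qq K ℓ x c) := by
  have h := (hPCB K ℓ hl).2 c c
  refine ⟨measurable_const.min h.2.1, fun x => ⟨le_min zero_le_one (h.1 x 0).1,
    min_le_left _ _, ?_⟩, ?_⟩
  · have h1 := (((hPCB K ℓ hl).2 0 0).1 x c).2.1
    rw [Nat.zero_add] at h1
    unfold Pool.Agent.H98.CE.qq
    rw [h1]
  · intro x x' hx
    have h1 := h.2.2 x x' hx
    change min 1 (pc K ℓ x c c) = min 1 (pc K ℓ x' c c)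
    have h2 : pc K ℓ x c c = pc K ℓ x' c c := h1
    rw [h2]

theorem pf_FWB (hPCB : T_PCB) : T_FWB := by
  intro K ν _ ℓ α κ n glo ghi hl hα hκ hglo hsum k
  have hq := qq_facts hPCB K ℓ hl
  induction k with
  | zero =>
    intro t
    refine ⟨?_, ?_, ?_⟩
    · unfold fw
      exact measurable_const
    · intro x
      unfold fw
      exact ⟨le_rfl, one_le_two⟩
    · intro _
      refine ⟨fun x x' _ => ?_, ?_⟩
      · change fw K ℓ α κ n glo ghi x 0 t = fw K ℓ α κ n glo ghi x' 0 t
        unfold fw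
        rfl
      · unfold fw
        simp
  | succ k ih =>
    intro t
    have hb : ∀ (x : ℕ → ℝ) (c : ℕ), 0 ≤ qq K ℓ x c * fw K ℓ α κ n glo ghi x k c ∧
        qq K ℓ x c * fw K ℓ α κ n glo ghi x k c ≤ 2 := by
      intro x c
      have h1 := (ih c).2.1 x
      have h2 := (hq c).2.1 x
      refine ⟨mul_nonneg h2.1 (zero_le_one.trans h1.1), ?_⟩
      calc qq K ℓ x c * fw K ℓ α κ n glo ghi x k c ≤ 1 * 2 :=
            mul_le_mul h2.2.1 h1.2 (zero_le_one.trans h1.1) zero_le_one
        _ = 2 := one_mul 2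
    have hm : ∀ c : ℕ, Measurable fun x : ℕ → ℝ => qq K ℓ x c * fw K ℓ α κ n glo ghi x k c :=
      fun c => (hq c).1.mul (ih c).1
    have hi : ∀ c : ℕ, Integrable (fun x : ℕ → ℝ => qq K ℓ x c * fw K ℓ α κ n glo ghi x k c)
        (iid ν) := by
      intro c
      refine Integrable.of_bound (hm c).aestronglyMeasurable 2 (Eventually.of_forall fun x => ?_)
      rw [Real.norm_eq_abs, abs_of_nonneg (hb x c).1]
      exact (hb x c).2
    refine ⟨?_, ?_, ?_⟩
    · unfold fw
      exact (Finset.measurable_fun_sum _ fun s _ => (hm (t - s)).const_mul _).const_add 1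
    · intro x
      unfold fw
      constructor
      · have : 0 ≤ ∑ s ∈ Finset.Ico glo ghi, lk α κ (s + n + 1) *
            (qq K ℓ x (t - s) * fw K ℓ α κ n glo ghi x k (t - s)) :=
          Finset.sum_nonneg fun s _ => mul_nonneg (lk_nonneg' hκ _) (hb x _).1
        linarith
      · have : ∑ s ∈ Finset.Ico glo ghi, lk α κ (s + n + 1) *
            (qq K ℓ x (t - s) * fw K ℓ α κ n glo ghi x k (t - s)) ≤
            ∑ s ∈ Finset.Ico glo ghi, lk α κ (s + n + 1) * 2 :=
          Finset.sum_le_sum fun s _ => mul_le_mul_of_nonneg_left (hb x _).2 (lk_nonneg' hκ _)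
        rw [← Finset.sum_mul] at this
        linarith
    · intro hkt
      have hs : ∀ s ∈ Finset.Ico glo ghi, k * ghi ≤ t - s ∧ t - s + 1 ≤ t := by
        intro s hs
        have h1 := Finset.mem_Ico.1 hs
        have h2 : (k + 1) * ghi = k * ghi + ghi := by ring
        omega
      constructor
      · intro x x' hx
        change fw K ℓ α κ n glo ghi x (k + 1) t = fw K ℓ α κ n glo ghi x' (k + 1) t
        unfold fw
        congr 1
        refine Finset.sum_congr rfl fun s hs' => ?_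
        have h1 := hs s hs'
        have h2 : (t - s + 1) * ℓ ≤ t * ℓ := Nat.mul_le_mul_right ℓ h1.2
        have h3 : (t - s) * ℓ ≤ t * ℓ := Nat.mul_le_mul_right ℓ (Nat.sub_le t s)
        have h4 : qq K ℓ x (t - s) = qq K ℓ x' (t - s) :=
          (hq (t - s)).2.2 x x' fun i hi => hx i (hi.trans_le h2)
        have h5 : fw K ℓ α κ n glo ghi x k (t - s) = fw K ℓ α κ n glo ghi x' k (t - s) :=
          ((ih (t - s)).2.2 h1.1).1 x x' fun i hi => hx i (hi.trans_le h3)
        rw [h4, h5]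
      · set Q := ∫ x : ℕ → ℝ, qq K ℓ x 0 ∂(iid ν) with hQ
        set σ := ∑ s ∈ Finset.Ico glo ghi, lk α κ (s + n + 1) with hσ
        have h1 : ∀ s ∈ Finset.Ico glo ghi,
            ∫ x : ℕ → ℝ, lk α κ (s + n + 1) *
              (qq K ℓ x (t - s) * fw K ℓ α κ n glo ghi x k (t - s)) ∂(iid ν) =
            lk α κ (s + n + 1) * (Q * ∑ i ∈ Finset.range (k + 1), (σ * Q) ^ i) := by
          intro s hs'
          have h2 := (ih (t - s)).2.2 (hs s hs').1
          rw [integral_const_mul]
          congr 1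
          have h3 : ∫ x : ℕ → ℝ, qq K ℓ x (t - s) * fw K ℓ α κ n glo ghi x k (t - s) ∂(iid ν) =
              ∫ x : ℕ → ℝ, fw K ℓ α κ n glo ghi x k (t - s) *
                (fun y : ℕ → ℝ => qq K ℓ y 0) (shift ((t - s) * ℓ) x) ∂(iid ν) := by
            congr 1
            funext x
            change _ = fw K ℓ α κ n glo ghi x k (t - s) * qq K ℓ (shift ((t - s) * ℓ) x) 0
            rw [← ((hq (t - s)).2.1 x).2.2, mul_comm]
          rw [h3, integral_mul_shift ν h2.1 (ih (t - s)).1.aestronglyMeasurable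
            (hq 0).1.aestronglyMeasurable, h2.2]
          rw [mul_comm]
        unfold fw
        rw [integral_add (integrable_const 1)
          (integrable_finsetSum _ fun s _ => (hi (t - s)).const_mul _),
          integral_finsetSum _ fun s _ => (hi (t - s)).const_mul _, Finset.sum_congr rfl h1,
          ← Finset.sum_mul, ← hσ, Finset.sum_range_succ' _ (k + 1), pow_zero]
        rw [integral_const, probReal_univ, one_smul, ← mul_assoc, Finset.mul_sum, add_comm]
        congr 1
        refine Finset.sum_congr rfl fun i _ => ?_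
        rw [pow_succ]
        ring

end Pool.Agent.H68.CEL
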