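import Pool.Agent.H98.CE.Targets

/-!
# Generating functions: the limit at one
-/

set_option autoImplicit false

open MeasureTheory ProbabilityTheory Filter Topology
open Pool.Agent.H95 Pool.Agent.H95.Cop Pool.Agent.H98.CE

namespace Pool.Agent.H68.CEL

theorem pw_nonneg {f : ℕ → ℝ} (hf : ∀ U, 0 ≤ f U) : ∀ m s : ℕ, 0 ≤ pw f m s := by
  intro m
  induction m with
  | zero =>
    intro s
    unfold pw
    split_ifs
    · exact zero_le_one
    · exact le_rfl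
  | succ m ih =>
    intro s
    unfold pw
    exact Finset.sum_nonneg fun j _ => mul_nonneg (hf j) (ih _)

theorem tendsto_gen {f : ℕ → ℝ} (hf : ∀ U, 0 ≤ f U) (hs : Summable f) :
    Tendsto (fun z : ℝ => ∑' U, f U * z ^ U) (𝓝[<] 1) (𝓝 (∑' U, f U)) := by
  apply tendsto_tsum_of_dominated_convergence hs
  · intro k
    have h1 : Tendsto (fun z : ℝ => f k * z ^ k) (𝓝 1) (𝓝 (f k * 1 ^ k)) :=
      (continuous_const.mul (continuous_pow k)).tendsto 1
    rw [one_pow, mul_one] at h1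
    exact h1.mono_left nhdsWithin_le_nhds
  · have h1 : ∀ᶠ z : ℝ in 𝓝[<] 1, z ∈ Set.Ioo (0 : ℝ) 1 :=
      Ioo_mem_nhdsLT one_pos
    filter_upwards [h1] with z hz k
    rw [Real.norm_eq_abs, abs_of_nonneg (mul_nonneg (hf k) (pow_nonneg hz.1.le k))]
    exact mul_le_of_le_one_right (hf k) (pow_le_one₀ hz.1.le hz.2.le)

theorem pf_NA2 (hNA1 : T_NA1) : T_NA2 := by
  intro f g η hη hf hf0 hfs hle hgs hg
  have hg0 : ∀ U, 0 ≤ g U := by
    intro U
    rw [hg U]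
    split_ifs
    · exact le_rfl
    · exact Finset.sum_nonneg fun m _ => mul_nonneg (pow_nonneg hη.le m) (pw_nonneg hf _ _)
  have h1 : Tendsto (fun z : ℝ => η * ∑' U, f U * z ^ U) (𝓝[<] 1) (𝓝 (η * ∑' U, f U)) :=
    (tendsto_gen hf hfs).const_mul η
  have h2 : Tendsto (fun z : ℝ => η * ∑' U, g U * z ^ U) (𝓝[<] 1) (𝓝 (η * ∑' U, g U)) :=
    (tendsto_gen hg0 hgs).const_mul η
  have h3 : Tendsto (fun z : ℝ => z) (𝓝[<] 1) (𝓝 1) := nhdsWithin_le_nhds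
  refine ⟨?_, h1⟩
  have h4 : Tendsto (fun z : ℝ => (1 - η * ∑' U, f U * z ^ U) *
      (z * (η * ∑' U, g U * z ^ U + η * f 1))) (𝓝[<] 1)
      (𝓝 ((1 - η * ∑' U, f U) * (1 * (η * ∑' U, g U + η * f 1)))) :=
    (h1.const_sub 1).mul (h3.mul (h2.add_const _))
  rw [one_mul] at h4
  refine tendsto_nhds_unique h1 (h4.congr' ?_)
  have h5 : ∀ᶠ z : ℝ in 𝓝[<] 1, z ∈ Set.Ioo (0 : ℝ) 1 := Ioo_mem_nhdsLT one_pos
  filter_upwards [h5] with z hz
  exact (hNA1 f g η z hη hf hf0 hfs hle hz.1.le hz.2 hg).2.2.symm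

end Pool.Agent.H68.CEL
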