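import Pool.Agent.H98.CE.Targets
import Pool.Agent.H55.CG.Targets

/-!
# A long excursion below
-/

set_option autoImplicit false

open MeasureTheory ProbabilityTheory Filter Topology
open Pool.Agent.H95 Pool.Agent.H95.Cop Pool.Agent.H98.CE
open Pool.Agent.H55.CG (pz VV Mo)

namespace Pool.Agent.H68.CEL

theorem uu_nonneg' (K : PMF ℕ) (n : ℕ) : 0 ≤ uu (kk K) n := by
  induction n using Nat.strong_induction_on with
  | _ n ih =>
    cases n with
    | zero =>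
      rw [uu_zero]
      exact zero_le_one
    | succ n =>
      rw [uu_succ]
      exact Finset.sum_nonneg fun j _ => mul_nonneg (kk_nonneg K _) (ih _ (by omega))

theorem kk_low {K : PMF ℕ} {ℓ : ℕ} {α κ : ℝ} (hl : 1 ≤ ℓ) (hα : 0 < α) (hκ : 0 ≤ κ)
    (hHK : HK K ℓ α κ) (hV : 0 < VV K ℓ) {j D : ℕ} (h1 : ℓ ≤ j) (h2 : j ≤ D * ℓ) :
    lk α κ D / VV K ℓ ≤ kk K j / 2 := by
  rw [div_le_iff₀ hV]
  refine le_trans ?_ (hHK j h1)
  unfold lk
  have hl0 : (0 : ℝ) < ℓ := by exact_mod_cast hl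
  have hj0 : (0 : ℝ) < j := by exact_mod_cast (lt_of_lt_of_le hl h1)
  apply mul_le_mul_of_nonneg_left _ hκ
  apply Real.rpow_le_rpow_of_nonpos (by positivity) _ (by linarith)
  rw [div_le_iff₀ hl0]
  exact_mod_cast h2

theorem pf_STB (hPZS : Pool.Agent.H55.CG.T_PZS) (hPZU : Pool.Agent.H55.CG.T_PZU)
    (hCHX : Pool.Agent.H55.CG.T_CHX) (hPCB : T_PCB) : T_STB := by
  intro K ℓ α κ hl hα hκ hHK x a b hab
  have hV : 0 < VV K ℓ := (hPCB K ℓ hl).1
  set L := (a + 1) * ℓ with hL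
  set E := Real.exp (H x L (b * ℓ)) with hE
  set c := lk α κ (b + 1 - a) / VV K ℓ * E with hc
  have hlk : 0 ≤ lk α κ (b + 1 - a) := mul_nonneg hκ (Real.rpow_nonneg (Nat.cast_nonneg _) _)
  have hLb : L + ℓ ≤ b * ℓ := by
    have h1 : (a + 2) * ℓ ≤ b * ℓ := Nat.mul_le_mul_right ℓ hab
    have h2 : (a + 2) * ℓ = L + ℓ := by rw [hL]; ring
    rw [← h2]
    exact h1
  let F : ℕ → ℕ → ℝ := fun y y' => uu (kk K) (y' - y) * Real.exp (H x y y' / 2 + H x y' L)
  let G : ℕ → ℕ → ℝ := fun z z' => uu (kk K) (z' - z) * Real.exp (H x (b * ℓ) z + H x z z' / 2)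
  have hF0 : ∀ y y', 0 ≤ F y y' := fun y y' => mul_nonneg (uu_nonneg' K _) (Real.exp_pos _).le
  have hG0 : ∀ y y', 0 ≤ G y y' := fun y y' => mul_nonneg (uu_nonneg' K _) (Real.exp_pos _).le
  have key : ∀ y y' z' z : ℕ, a * ℓ ≤ y → y ≤ y' → y' < L → b * ℓ ≤ z' → z' ≤ z →
      z < (b + 1) * ℓ → F y y' * (c * G z' z) ≤
        pz K x (y' - y) y * (kk K (z' - y') * wt x y' z' * pz K x (z - z') z') := by
    intro y y' z' z hay hyy hyL hbz hzz hz
    have h1 : uu (kk K) (y' - y) * Real.exp (H x y y' / 2) ≤ pz K x (y' - y) y := by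
      have := hPZU K x (y' - y) y
      rwa [Nat.add_sub_cancel' hyy] at this
    have h2 : uu (kk K) (z - z') * Real.exp (H x z' z / 2) ≤ pz K x (z - z') z' := by
      have := hPZU K x (z - z') z'
      rwa [Nat.add_sub_cancel' hzz] at this
    have h3 : lk α κ (b + 1 - a) / VV K ℓ * Real.exp (H x y' z') ≤
        kk K (z' - y') * wt x y' z' := by
      have h4 : lk α κ (b + 1 - a) / VV K ℓ ≤ kk K (z' - y') / 2 := by
        apply kk_low hl hα hκ hHK hV
        · omega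
        · have h5 : (b + 1 - a) * ℓ + a * ℓ = (b + 1) * ℓ := by
            rw [← Nat.add_mul]
            congr 1
            omega
          omega
      have h5 : Real.exp (H x y' z') / 2 ≤ wt x y' z' := by
        unfold wt
        linarith
      calc lk α κ (b + 1 - a) / VV K ℓ * Real.exp (H x y' z')
          ≤ kk K (z' - y') / 2 * Real.exp (H x y' z') :=
            mul_le_mul_of_nonneg_right h4 (Real.exp_pos _).le
        _ = kk K (z' - y') * (Real.exp (H x y' z') / 2) := by ring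
        _ ≤ kk K (z' - y') * wt x y' z' := mul_le_mul_of_nonneg_left h5 (kk_nonneg K _)
    have h6 : H x y' z' = H x y' L + H x L (b * ℓ) + H x (b * ℓ) z' := by
      unfold H
      rw [Finset.sum_Ico_consecutive _ hyL.le (by omega),
        Finset.sum_Ico_consecutive _ (by omega) hbz]
    have h7 : F y y' * (c * G z' z) = uu (kk K) (y' - y) * Real.exp (H x y y' / 2) *
        (lk α κ (b + 1 - a) / VV K ℓ * Real.exp (H x y' z') *
          (uu (kk K) (z - z') * Real.exp (H x z' z / 2))) := by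
      simp only [F, G]
      rw [h6, hc, hE, Real.exp_add, Real.exp_add, Real.exp_add, Real.exp_add]
      ring
    rw [h7]
    have hm0 : 0 ≤ lk α κ (b + 1 - a) / VV K ℓ * Real.exp (H x y' z') :=
      mul_nonneg (div_nonneg hlk hV.le) (Real.exp_pos _).le
    have hp2 : 0 ≤ uu (kk K) (z - z') * Real.exp (H x z' z / 2) :=
      mul_nonneg (uu_nonneg' K _) (Real.exp_pos _).le
    have hp1 : 0 ≤ pz K x (y' - y) y :=
      (mul_nonneg (uu_nonneg' K _) (Real.exp_pos _).le).trans h1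
    exact mul_le_mul h1 (mul_le_mul h3 h2 hp2 (hm0.trans h3)) (mul_nonneg hm0 hp2) hp1
  have key2 : ∀ y ∈ Finset.Ico (a * ℓ) L, ∀ z ∈ Finset.Ico (b * ℓ) ((b + 1) * ℓ),
      (∑ y' ∈ Finset.Ico y L, F y y') * (c * ∑ z' ∈ Finset.Icc (b * ℓ) z, G z' z) ≤
        if y ≤ z then pz K x (z - y) y else 0 := by
    intro y hy z hz
    have hy1 := Finset.mem_Ico.1 hy
    have hz1 := Finset.mem_Ico.1 hz
    rw [if_pos (by omega)]
    refine le_trans ?_ (hCHX K x L z (by omega) (Finset.Icc (b * ℓ) z)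
      (Finset.Icc_subset_Icc_left (by omega)) y hy1.2.le)
    rw [Finset.sum_mul]
    refine Finset.sum_le_sum fun y' hy' => ?_
    rw [Finset.mul_sum, Finset.mul_sum, Finset.mul_sum]
    refine Finset.sum_le_sum fun z' hz' => ?_
    have hy2 := Finset.mem_Ico.1 hy'
    have hz2 := Finset.mem_Icc.1 hz'
    exact key y y' z' z hy1.1 hy2.1 hy2.2 hz2.1 hz2.2 hz1.2
  have key3 : (∑ y ∈ Finset.Ico (a * ℓ) L, ∑ y' ∈ Finset.Ico y L, F y y') *
      (c * ∑ z ∈ Finset.Ico (b * ℓ) ((b + 1) * ℓ), ∑ z' ∈ Finset.Icc (b * ℓ) z, G z' z) ≤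
      ∑ y ∈ Finset.Ico (a * ℓ) L, ∑ z ∈ Finset.Ico (b * ℓ) ((b + 1) * ℓ),
        if y ≤ z then pz K x (z - y) y else 0 := by
    rw [Finset.sum_mul]
    refine Finset.sum_le_sum fun y hy => ?_
    rw [Finset.mul_sum, Finset.mul_sum]
    exact Finset.sum_le_sum fun z hz => key2 y hy z hz
  have hcomm : (∑ z ∈ Finset.Ico (b * ℓ) ((b + 1) * ℓ), ∑ z' ∈ Finset.Icc (b * ℓ) z, G z' z) =
      ∑ z' ∈ Finset.Ico (b * ℓ) ((b + 1) * ℓ), ∑ z ∈ Finset.Ico z' ((b + 1) * ℓ), G z' z := by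
    apply Finset.sum_comm'
    intro z z'
    simp only [Finset.mem_Ico, Finset.mem_Icc]
    constructor
    · rintro ⟨⟨h1, h2⟩, h3, h4⟩
      exact ⟨⟨h4, h2⟩, h3, lt_of_le_of_lt h4 h2⟩
    · rintro ⟨⟨h1, h2⟩, h3, h4⟩
      exact ⟨⟨h3.trans h1, h2⟩, h3, h1⟩
  rw [hcomm] at key3
  have hst : lk α κ (b + 1 - a) * st K ℓ x a b =
      ((∑ y ∈ Finset.Ico (a * ℓ) L, ∑ y' ∈ Finset.Ico y L, F y y') *
      (c * ∑ z' ∈ Finset.Ico (b * ℓ) ((b + 1) * ℓ), ∑ z ∈ Finset.Ico z' ((b + 1) * ℓ), G z' z)) /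
        VV K ℓ := by
    unfold st Rr Ll
    rw [hc]
    ring
  rw [hst]
  unfold pc
  exact div_le_div_of_nonneg_right key3 hV.le

end Pool.Agent.H68.CEL
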